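import Pool.Agent.Lib.MP_f99ede_an.Unc.Index

/-! An uncountable family of pairwise non-isomorphic complemented subspaces of `L₁[0,1]`. -/

open MeasureTheory Cardinal

namespace Pool.Agent.Lib.MP_f99ede_an.Unc

/-- There is a bounded linear map from `E` to `F` that is bounded below. -/
def Emd (E F : Type*) [NormedAddCommGroup E] [NormedSpace ℝ E] [NormedAddCommGroup F]
    [NormedSpace ℝ F] : Prop :=
  ∃ (T : E →L[ℝ] F) (c : ℝ), 0 < c ∧ ∀ x, c * ‖x‖ ≤ ‖T x‖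

theorem Emd.of_equiv {E F : Type*} [NormedAddCommGroup E] [NormedSpace ℝ E] [NormedAddCommGroup F]
    [NormedSpace ℝ F] (i : E ≃L[ℝ] F) : Emd E F := by
  obtain ⟨c, h1, h2⟩ := below_of_equiv i
  exact ⟨i, c, h1, h2⟩

theorem Good.complete {X : Submodule ℝ L01} (h : Good X) : CompleteSpace X := by
  obtain ⟨⟨P, h1, rfl⟩, -⟩ := h
  exact range_complete h1

theorem exists_index : ∃ (I : Type) (_ : LinearOrder I) (_ : WellFoundedLT I) (_ : Uncountable I),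
    ∀ b : I, (Set.Iic b).Countable := by
  refine ⟨(ℵ₁ : Cardinal.{0}).ord.ToType, inferInstance, inferInstance, ?_, fun b => ?_⟩
  · rw [← aleph0_lt_mk_iff, mk_ord_toType]
    exact aleph0_lt_aleph_one
  · rw [← Set.Iio_insert]
    refine (le_aleph0_iff_set_countable.1 (lt_aleph_one_iff.1 ?_)).insert b
    simpa using mk_Iio_lt b (by simp)

theorem family : ∃ F : Set (Submodule ℝ L01), ¬F.Countable ∧ (∀ X ∈ F, Good X) ∧
    (∀ X ∈ F, ∀ Y ∈ F, X ≠ Y → ¬Nonempty (X ≃L[ℝ] Y)) ∧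
    ∀ (Z : Type) [NormedAddCommGroup Z] [NormedSpace ℝ Z] [CompleteSpace Z]
      [TopologicalSpace.SeparableSpace Z], ¬Emd L01 Z → {X ∈ F | Emd X Z}.Countable := by
  obtain ⟨I, _, _, _, hI⟩ := exists_index
  have h0 := fun β : I => by
    have := (hI β).to_subtype
    have : Nonempty (Set.Iic β) := ⟨⟨β, le_rfl⟩⟩
    exact exists_space (noBr_dec β)
  choose X hX C ζ hC hζ using h0
  have key : ∀ (Z : Type) [NormedAddCommGroup Z] [NormedSpace ℝ Z] [CompleteSpace Z]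
      [TopologicalSpace.SeparableSpace Z], ¬Emd L01 Z → {β | Emd (X β) Z}.Countable := by
    intro Z _ _ _ _ hZ
    obtain ⟨i⟩ := exists_equiv
    refine (Set.countable_iUnion fun N : ℕ => count (Z := Z) hI N fun W hW => hZ
      ⟨W ∘L (i.symm.toContinuousLinearEquiv : L01 →L[ℝ] LC), 1 / (N + 1), by positivity,
        fun f => ?_⟩).mono ?_
    · have h1 := hW (i.symm f)
      rw [i.symm.norm_map] at h1
      rw [div_mul_eq_mul_div, one_mul, div_le_iff₀ (by positivity)]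
      change _ ≤ ‖W (i.symm f)‖ * _
      nlinarith [norm_nonneg (W (i.symm f))]
    · rintro β ⟨U, a, ha, hU⟩
      obtain ⟨N, hN⟩ := (hζ β).map (hC β) U ha hU
      exact Set.mem_iUnion.2 ⟨N, _, hN⟩
  let R : Set I := {β | ∀ γ < β, ¬Nonempty (X γ ≃L[ℝ] X β)}
  refine ⟨X '' R, fun h => Set.not_countable_univ (α := I) ((h.biUnion
    (t := fun (Y : Submodule ℝ L01) _ => {β | Emd (X β) Y}) ?_).mono fun β _ => ?_), ?_, ?_,
    fun Z _ _ _ _ hZ => ((key Z hZ).image X).mono ?_⟩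
  · rintro _ ⟨ρ, -, rfl⟩
    have := (hX ρ).complete
    have : Fact ((1 : ENNReal) ≠ ⊤) := ⟨by simp⟩
    exact key (X ρ) fun ⟨T, c, h1, h2⟩ => (hX ρ).2.2.1 T c h1 h2
  · obtain ⟨ρ, ⟨i⟩, hρ⟩ := (wellFounded_lt (α := I)).has_min
      {γ | Nonempty (X γ ≃L[ℝ] X β)} ⟨β, ⟨ContinuousLinearEquiv.refl _ _⟩⟩
    exact Set.mem_iUnion₂.2 ⟨X ρ, ⟨ρ, fun γ hγ ⟨j⟩ => hρ γ ⟨j.trans i⟩ hγ, rfl⟩,
      Emd.of_equiv i.symm⟩
  · rintro _ ⟨β, -, rfl⟩
    exact hX β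
  · rintro _ ⟨β, hβ, rfl⟩ _ ⟨γ, hγ, rfl⟩ hne ⟨i⟩
    rcases lt_trichotomy β γ with h | h | h
    · exact hγ β h ⟨i⟩
    · exact hne (h ▸ rfl)
    · exact hβ γ h ⟨i.symm⟩
  · rintro _ ⟨⟨β, -, rfl⟩, h⟩
    exact ⟨β, h, rfl⟩

end Pool.Agent.Lib.MP_f99ede_an.Unc
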