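import Pool.Agent.Lib.MP_f99ede_an.H80Res

/-! Signed averages over finitely many coordinates, and resolvents of weighted block averages. -/

open MeasureTheory Finset

namespace Pool.Agent.Lib.MP_f99ede_an.Unc

/-- The sets `S` and `F` agree on `D`. -/
def Agr (D S F : Finset ℕ) : Prop := ∀ i ∈ D, (i ∈ S ↔ i ∈ F)

instance (D S F : Finset ℕ) : Decidable (Agr D S F) := by
  unfold Agr
  infer_instance

/-- Composition with the flip of one coordinate. -/
def cfl (j : ℕ) : CC →ₗ[ℝ] CC where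
  toFun f := f.comp (flp j)
  map_add' _ _ := rfl
  map_smul' _ _ := rfl

theorem cfl_apply (j : ℕ) (f : CC) (x : Cube) : cfl j f x = f (flp j x) := rfl

theorem exists_avg (D : Finset ℕ) : ∃ B : Finset ℕ → CC →ₗ[ℝ] CC,
    (∀ F S, B F (wal S) = if Agr D S F then wal S else 0) ∧
    (∀ F f x, |B F f x| ≤ B ∅ |f| x) ∧ ∀ f, Ex (B ∅ f) = Ex f := by
  induction D using Finset.induction_on with
  | empty => exact ⟨fun _ => LinearMap.id, fun F S => by simp [Agr], fun F f x => by simp,
      fun f => rfl⟩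
  | insert j D hj ih =>
    obtain ⟨B, h1, h2, h3⟩ := ih
    refine ⟨fun F => (1 / 2 : ℝ) • (B F + (if j ∈ F then (-1 : ℝ) else 1) • (cfl j ∘ₗ B F)),
      fun F S => ?_, fun F f x => ?_, fun f => ?_⟩
    · have e : Agr (insert j D) S F ↔ (j ∈ S ↔ j ∈ F) ∧ Agr D S F := by simp [Agr]
      ext x
      simp only [LinearMap.smul_apply, LinearMap.add_apply, LinearMap.comp_apply, h1,
        ContinuousMap.smul_apply, ContinuousMap.add_apply, cfl_apply, smul_eq_mul, e]
      by_cases a : Agr D S F <;> by_cases b : j ∈ S <;> by_cases c : j ∈ F <;>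
        simp [a, b, c, wal_flp] <;> ring
    · simp only [LinearMap.smul_apply, LinearMap.add_apply, LinearMap.comp_apply,
        ContinuousMap.smul_apply, ContinuousMap.add_apply, cfl_apply, smul_eq_mul, notMem_empty,
        if_false, one_mul]
      have k1 := abs_le.1 (h2 F f x)
      have k2 := abs_le.1 (h2 F f (flp j x))
      rw [abs_le]
      split_ifs <;> constructor <;> linarith [k1.1, k1.2, k2.1, k2.2]
    · have k : Ex (cfl j (B ∅ f)) = Ex (B ∅ f) := Ex_comp_flp j _
      simp only [LinearMap.smul_apply, LinearMap.add_apply, LinearMap.comp_apply, notMem_empty,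
        if_false, one_smul, map_smul, map_add, k, h3, smul_eq_mul]
      ring

theorem avg_pol {D : Finset ℕ} {B : Finset ℕ → CC →ₗ[ℝ] CC}
    (h : ∀ F S, B F (wal S) = if Agr D S F then wal S else 0) (F s : Finset ℕ) (c : Finset ℕ → ℝ) :
    B F (pol s c) = pol s fun S => if Agr D S F then c S else 0 := by
  simp only [pol, map_sum, map_smul, h]
  refine sum_congr rfl fun S _ => ?_
  split_ifs <;> simp

/-- The total weight of the ancestors of the members of `S`. -/
noncomputable def psi (anc : ℕ → Finset ℕ) (w : ℕ → ℝ) (S : Finset ℕ) : ℝ :=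
  ∑ v ∈ S.biUnion anc, w v

/-- The multiplier of the resolvent. -/
noncomputable def mps (anc : ℕ → Finset ℕ) (w : ℕ → ℝ) (l : ℝ) (S : Finset ℕ) : ℝ :=
  l / (l + psi anc w S)

variable {anc : ℕ → Finset ℕ} {w : ℕ → ℝ}

theorem psi_nonneg (hw : ∀ v, 0 ≤ w v) (S : Finset ℕ) : 0 ≤ psi anc w S :=
  sum_nonneg fun v _ => hw v

theorem psi_mono (hw : ∀ v, 0 ≤ w v) {S T : Finset ℕ} (h : S ⊆ T) : psi anc w S ≤ psi anc w T :=
  sum_le_sum_of_subset_of_nonneg (biUnion_subset_biUnion_of_subset_left _ h) fun v _ _ => hw v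

theorem two_sided (hw : ∀ v, 0 ≤ w v) {l : ℝ} (hl : 0 < l) (s : Finset ℕ) (c : Finset ℕ → ℝ) :
    ‖toL (pol s fun S => mps anc w l S * c S)‖ ≤ ‖toL (pol s c)‖ ∧
      l * ‖toL (pol s c)‖ ≤ (l + 2 * psi anc w s) * ‖toL (pol s fun S => mps anc w l S * c S)‖ := by
  set g := pol s fun S => mps anc w l S * c S with hg
  choose B h1 h2 h3 using fun v => exists_avg (s.filter fun j => v ∈ anc j)
  have hE : ∀ v, ‖toL (B v ∅ g)‖ ≤ ‖toL g‖ := fun v => by
    rw [norm_toL, norm_toL, ← h3 v |g|]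
    exact Ex_mono fun x => h2 v ∅ g x
  have key : (l + psi anc w s) • g = l • pol s c + ∑ v ∈ s.biUnion anc, w v • B v ∅ g := by
    simp only [hg, avg_pol (h1 _)]
    ext x
    simp only [ContinuousMap.smul_apply, ContinuousMap.add_apply, ContinuousMap.sum_apply,
      smul_eq_mul, pol_apply, mul_sum]
    rw [sum_comm, ← sum_add_distrib]
    refine sum_congr rfl fun S hS => ?_
    have hS' := mem_powerset.1 hS
    have e1 : ∀ v, Agr (s.filter fun j => v ∈ anc j) S ∅ ↔ v ∉ S.biUnion anc := fun v => by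
      simp only [Agr, mem_filter, notMem_empty, iff_false, mem_biUnion, not_exists, not_and]
      exact ⟨fun h j hj hv => h j ⟨hS' hj, hv⟩ hj, fun h j hj hv => h j hv hj.2⟩
    have e2 : ∑ v ∈ s.biUnion anc, w v * ((if Agr (s.filter fun j => v ∈ anc j) S ∅ then
        mps anc w l S * c S else 0) * wal S x) =
        (psi anc w s - psi anc w S) * (mps anc w l S * c S * wal S x) := by
      rw [psi, psi, ← sum_sdiff_eq_sub (biUnion_subset_biUnion_of_subset_left _ hS'), sum_mul,
        sdiff_eq_filter, sum_filter]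
      refine sum_congr rfl fun v _ => ?_
      simp only [e1]
      split_ifs <;> simp
    rw [e2, mps]
    have : l + psi anc w S ≠ 0 := by
      have := psi_nonneg (anc := anc) hw S
      positivity
    field_simp
    ring
  have p0 := psi_nonneg (anc := anc) hw s
  have k1 : ‖toL (∑ v ∈ s.biUnion anc, w v • B v ∅ g)‖ ≤ psi anc w s * ‖toL g‖ := by
    rw [map_sum, psi, sum_mul]
    refine (norm_sum_le _ _).trans (sum_le_sum fun v _ => ?_)
    rw [map_smul, norm_smul, Real.norm_of_nonneg (hw v)]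
    exact mul_le_mul_of_nonneg_left (hE v) (hw v)
  have k2 := congrArg toL key
  rw [map_add, map_smul, map_smul] at k2
  have k3 := norm_add_le (l • toL (pol s c)) (toL (∑ v ∈ s.biUnion anc, w v • B v ∅ g))
  have k4 := norm_sub_le ((l + psi anc w s) • toL g) (toL (∑ v ∈ s.biUnion anc, w v • B v ∅ g))
  rw [← k2] at k3
  rw [k2, add_sub_cancel_right, ← k2] at k4
  rw [norm_smul, norm_smul, Real.norm_of_nonneg hl.le,
    Real.norm_of_nonneg (by positivity)] at k3 k4
  constructor <;> nlinarith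

theorem exists_res (hw : ∀ v, 0 ≤ w v) {l : ℝ} (hl : 0 < l) :
    ∃ R : LC →L[ℝ] LC, ‖R‖ ≤ 1 ∧ ∀ S, R (toL (wal S)) = mps anc w l S • toL (wal S) := by
  have hn : ∀ c : Finset ℕ →₀ ℝ,
      ‖Finsupp.linearCombination ℝ (fun S => mps anc w l S • toL (wal S)) c‖ ≤
        1 * ‖Finsupp.linearCombination ℝ (fun S => (1 : ℝ) • toL (wal S)) c‖ := fun c => by
    rw [lc_pol, lc_pol (fun _ => 1)]
    simpa using (two_sided hw hl _ c).1
  refine ⟨LinearMap.extendOfNorm _ _, LinearMap.opNorm_extendOfNorm_le dense_wal zero_le_one hn,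
    fun S => ?_⟩
  simpa using LinearMap.extendOfNorm_eq dense_wal ⟨1, hn⟩ (Finsupp.single S 1)

theorem mul_pol {m : Finset ℕ → ℝ} {R : LC →L[ℝ] LC} (hR : ∀ S, R (toL (wal S)) = m S • toL (wal S))
    (s : Finset ℕ) (c : Finset ℕ → ℝ) : R (toL (pol s c)) = toL (pol s fun S => m S * c S) := by
  simp only [pol, map_sum, map_smul, hR, smul_smul, mul_comm]

end Pool.Agent.Lib.MP_f99ede_an.Unc
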