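import Pool.Agent.Lib.MP_f99ede_an.Unc.Fib

/-! A Walsh multiplier whose large values lie on compact families of finite sets kills random
signs. -/

open MeasureTheory Finset Filter Topology

namespace Pool.Agent.Lib.MP_f99ede_an.Unc

theorem signs {R : LC →L[ℝ] LC} (hR1 : ‖R‖ ≤ 1) {η : ℝ} (hη : 0 < η) (I : Finset (Finset ℕ))
    (f : Finset ℕ → LC) (g p : Finset ℕ → CC) (hp : ∀ a ∈ I, R (toL (g a)) = toL (p a)) :
    (I.powerset.expect fun T => ‖R (∑ a ∈ I, sg T a • f a)‖) ≤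
      (η / 4 + ∑ a ∈ I, ‖f a - toL (g a)‖) + η⁻¹ * ∑ a ∈ I, Ex (p a * p a) := by
  set F : Finset (Finset ℕ) → CC := fun T => ∑ a ∈ I, sg T a • p a with hF
  have h3 : ∀ T, ‖R (∑ a ∈ I, sg T a • f a)‖ ≤
      (η / 4 + ∑ a ∈ I, ‖f a - toL (g a)‖) + η⁻¹ * Ex (F T * F T) := fun T => by
    have k1 : R (∑ a ∈ I, sg T a • f a) = toL (F T) + R (∑ a ∈ I, sg T a • (f a - toL (g a))) := by
      simp only [hF, map_sum, map_smul, ← sum_add_distrib]
      refine sum_congr rfl fun a ha => ?_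
      rw [← hp a ha, map_sub, ← smul_add, add_sub_cancel]
    have k2 : ‖R (∑ a ∈ I, sg T a • (f a - toL (g a)))‖ ≤ ∑ a ∈ I, ‖f a - toL (g a)‖ := by
      refine (R.le_of_opNorm_le hR1 _).trans ?_
      rw [one_mul]
      refine (norm_sum_le _ _).trans (sum_le_sum fun a _ => ?_)
      rw [norm_smul, Real.norm_eq_abs, abs_sg, one_mul]
    have k3 : Ex |F T| ≤ Ex ((η / 4) • 1 + η⁻¹ • (F T * F T)) := Ex_mono fun x => by
      simp only [ContinuousMap.abs_apply, ContinuousMap.add_apply, ContinuousMap.smul_apply,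
        ContinuousMap.mul_apply, ContinuousMap.one_apply, smul_eq_mul, mul_one]
      rw [← abs_mul_abs_self, ← sub_le_iff_le_add', le_inv_mul_iff₀ hη]
      nlinarith [sq_nonneg (|F T x| - η / 2)]
    rw [map_add, map_smul, map_smul, Ex_one, smul_eq_mul, smul_eq_mul, ← norm_toL] at k3
    rw [k1]
    linarith [norm_add_le (toL (F T)) (R (∑ a ∈ I, sg T a • (f a - toL (g a))))]
  have h4 : (I.powerset.expect fun T => Ex (F T * F T)) = ∑ a ∈ I, Ex (p a * p a) := by
    have k1 : ∑ T ∈ I.powerset, F T * F T = (2 ^ I.card : ℝ) • ∑ a ∈ I, p a * p a := by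
      ext x
      simpa [hF, sq] using sum_sg_sq I fun a => p a x
    rw [expect_eq_sum_div_card, ← map_sum, k1, map_smul, map_sum, card_powerset, smul_eq_mul]
    push_cast
    field_simp
  refine (expect_le_expect fun T _ => h3 T).trans ?_
  rw [expect_add_distrib, expect_const (powerset_nonempty _), ← mul_expect, h4]

theorem trunc (I : Finset (Finset ℕ)) (G : Finset ℕ → CC) (s : Finset ℕ)
    (hs : ∀ a ∈ I, DependsOn (G a) s) (ψ : CC) {M : ℝ} (hM : 0 < M) (hψ : ∀ x, ψ x ≤ M) :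
    ∃ c : Finset ℕ → Finset ℕ → ℝ, (∀ a ∈ I, ∀ x, |pol s (c a) x| ≤ |G a x|) ∧
      (∀ x, ∑ a ∈ I, |pol s (c a) x| ≤ M) ∧
      ∑ a ∈ I, ‖toL (G a) - toL (pol s (c a))‖ ≤ Ex |∑ a ∈ I, |G a| - ψ| := by
  set θ : Cube → ℝ := fun x => M / max M (∑ a ∈ I, |G a x|) with hθ
  have h0 : ∀ x, 0 < max M (∑ a ∈ I, |G a x|) := fun x => hM.trans_le (le_max_left _ _)
  have h1 : ∀ x, 0 ≤ θ x := fun x => div_nonneg hM.le (h0 x).le
  have h2 : ∀ x, θ x ≤ 1 := fun x => (div_le_one (h0 x)).2 (le_max_left _ _)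
  have hc : ∀ a, ∃ c, a ∈ I → ∀ x, θ x * G a x = pol s c x := fun a => by
    by_cases h : a ∈ I
    · obtain ⟨c, hc⟩ := exists_pol s (fun x => θ x * G a x) fun x y e => by
        simp only [hθ]
        rw [hs a h e, sum_congr rfl fun b hb => by rw [hs b hb e]]
      exact ⟨c, fun _ => hc⟩
    · exact ⟨0, fun e => absurd e h⟩
  choose c hc using hc
  have h3 : ∀ a ∈ I, ∀ x, |pol s (c a) x| = θ x * |G a x| := fun a ha x => by
    rw [← hc a ha, abs_mul, abs_of_nonneg (h1 x)]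
  refine ⟨c, fun a ha x => ?_, fun x => ?_, ?_⟩
  · rw [h3 a ha]
    exact mul_le_of_le_one_left (abs_nonneg _) (h2 x)
  · rw [sum_congr rfl fun a ha => h3 a ha x, ← mul_sum, hθ, div_mul_eq_mul_div,
      div_le_iff₀ (h0 x)]
    exact mul_le_mul_of_nonneg_left (le_max_right _ _) hM.le
  · simp only [← map_sub, norm_toL]
    rw [← map_sum]
    refine Ex_mono fun x => ?_
    simp only [ContinuousMap.sum_apply, ContinuousMap.abs_apply, ContinuousMap.sub_apply]
    have k1 : ∀ a ∈ I, |G a x - pol s (c a) x| = (1 - θ x) * |G a x| := fun a ha => by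
      rw [← hc a ha, ← one_sub_mul, abs_mul, abs_of_nonneg (sub_nonneg.2 (h2 x))]
    rw [sum_congr rfl k1, ← mul_sum]
    rcases le_total (∑ a ∈ I, |G a x|) M with h | h
    · simp only [hθ]
      rw [max_eq_left h, div_self hM.ne', sub_self, zero_mul]
      exact abs_nonneg _
    · simp only [hθ]
      rw [max_eq_right h, one_sub_mul, div_mul_cancel₀ _ (hM.trans_le h).ne']
      linarith [hψ x, le_abs_self (∑ a ∈ I, |G a x| - ψ x)]

theorem nul_mult {m : Finset ℕ → ℝ} {R : LC →L[ℝ] LC} (hR1 : ‖R‖ ≤ 1)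
    (hR : ∀ S, R (toL (wal S)) = m S • toL (wal S)) (hm : ∀ S, |m S| ≤ 1)
    (hcov : ∀ δ > 0, ∀ J : Finset ℕ → ℕ, ∃ C : Finset (Finset ℕ),
      ∀ S, δ < |m S| → ∃ F ∈ C, Agr (range (J F)) S F) : Nul R := fun V η hη => by
  obtain ⟨m0, s0, ψ, -, -, h3⟩ := approx V 0 (show 0 < η / 4 by positivity)
  set M := ‖ψ ∅‖ + 1 with hM
  have hM0 : 0 < M := by positivity
  have hψ : ∀ x, ψ ∅ x ≤ M := fun x => by
    linarith [(ψ ∅).norm_coe_le_norm x, le_abs_self (ψ ∅ x), Real.norm_eq_abs (ψ ∅ x)]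
  obtain ⟨ε, hε0, ε1, hε1, hε2⟩ :=
    posSumOfEncodable (show 0 < η ^ 2 / (48 * M) by positivity) (Finset ℕ)
  choose J m1 hJ using fun F => small V (hε0 F)
  obtain ⟨C, hC⟩ := hcov (η / (4 * M)) (by positivity) J
  filter_upwards [eventually_ge_atTop m0, eventually_ge_atTop (C.sup m1)] with n hn0 hn1
  set I := (range n).powerset with hI
  set τ := min (η / 8) (η ^ 2 / (16 * M) / (C.card + 1)) with hτ
  have hτ0 : 0 < τ := by positivity
  choose s G hs hG using fun a => exists_cyl (V (toL (cyl n a)))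
    (show 0 < τ / (I.card + 1) by positivity)
  have hG1 : ∑ a ∈ I, ‖V (toL (cyl n a)) - toL (G a)‖ ≤ τ := by
    refine (sum_le_sum fun a _ => hG a).trans ?_
    rw [sum_const, nsmul_eq_mul, ← mul_div_assoc, div_le_iff₀ (by positivity)]
    nlinarith
  obtain ⟨c, c1, c2, c3⟩ := trunc I G (I.biUnion s)
    (fun a ha => (hs a).mono (coe_subset.2 (subset_biUnion_of_mem s ha))) (ψ ∅) hM0 hψ
  set t := I.biUnion s
  have k1 := signs hR1 hη I (fun a => V (toL (cyl n a))) (fun a => pol t (c a))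
    (fun a => pol t fun S => m S * c a S) fun a _ => mul_pol hR t (c a)
  have k2 : ∑ a ∈ I, ‖V (toL (cyl n a)) - toL (pol t (c a))‖ ≤ η / 2 := by
    have e1 := near V 0 n G ψ
    have e2 := h3 n hn0
    have e3 : fib 0 ∅ n = I := by simp [fib, hI]
    simp only [range_zero, powerset_empty, sum_singleton] at e1 e2
    rw [e3] at e1
    refine (sum_le_sum fun a _ => norm_sub_le_norm_sub_add_norm_sub _ (toL (G a)) _).trans ?_
    rw [sum_add_distrib]
    linarith [min_le_left (η / 8) (η ^ 2 / (16 * M) / (C.card + 1))]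
  have k3 : ∑ a ∈ I, ∑ S ∈ t.powerset, c a S * c a S ≤ M ^ 2 := by
    simp only [← parseval]
    rw [← map_sum, ← mul_one (M ^ 2), ← Ex_one, ← smul_eq_mul, ← map_smul]
    refine Ex_mono fun x => ?_
    simp only [ContinuousMap.sum_apply, ContinuousMap.mul_apply, ContinuousMap.smul_apply,
      ContinuousMap.one_apply, smul_eq_mul, mul_one]
    calc _ = ∑ a ∈ I, |pol t (c a) x| ^ 2 := sum_congr rfl fun a _ => by rw [sq_abs, sq]
      _ ≤ (∑ a ∈ I, |pol t (c a) x|) ^ 2 := sum_sq_le_sq_sum_of_nonneg fun _ _ => abs_nonneg _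
      _ ≤ _ := pow_le_pow_left₀ (sum_nonneg fun _ _ => abs_nonneg _) (c2 x) 2
  have k4 : ∑ F ∈ C, ∑ a ∈ I, ∑ S ∈ t.powerset,
      (if Agr (range (J F)) S F then c a S else 0) ^ 2 ≤ η ^ 2 / 8 := by
    refine (sum_le_sum fun F hF => hJ F n ((le_sup (f := m1) hF).trans hn1) G τ M t c F hM0.le
      hG1 c1 c2).trans ?_
    rw [← mul_sum, sum_add_distrib, ← mul_sum, sum_const, nsmul_eq_mul]
    have e1 : ∑ F ∈ C, ε F ≤ η ^ 2 / (48 * M) :=
      (sum_le_hasSum C (fun F _ => (hε0 F).le) hε1).trans hε2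
    have e2 : τ ≤ η ^ 2 / (16 * M) / (C.card + 1) := min_le_right _ _
    rw [le_div_iff₀ (by positivity), le_div_iff₀ (by positivity)] at e2
    rw [le_div_iff₀ (by positivity)] at e1
    nlinarith
  have k5 : ∑ a ∈ I, Ex ((pol t fun S => m S * c a S) * pol t fun S => m S * c a S) ≤
      η ^ 2 / 4 := by
    simp only [parseval]
    have e1 : ∀ a S, m S * c a S * (m S * c a S) ≤ (η / (4 * M)) ^ 2 * (c a S * c a S) +
        ∑ F ∈ C, (if Agr (range (J F)) S F then c a S else 0) ^ 2 := fun a S => by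
      have e2 : m S * c a S * (m S * c a S) = |m S| ^ 2 * (c a S * c a S) := by
        rw [sq_abs]
        ring
      have e3 := mul_self_nonneg (c a S)
      rw [e2]
      rcases lt_or_ge (η / (4 * M)) |m S| with h | h
      · obtain ⟨F, hF, hA⟩ := hC S h
        have e4 := single_le_sum (f := fun F => (if Agr (range (J F)) S F then c a S else 0) ^ 2)
          (fun _ _ => sq_nonneg _) hF
        simp only [if_pos hA] at e4
        have e5 : |m S| ^ 2 ≤ 1 := pow_le_one₀ (abs_nonneg _) (hm S)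
        nlinarith [mul_nonneg (sq_nonneg (η / (4 * M))) e3]
      · have e4 : 0 ≤ ∑ F ∈ C, (if Agr (range (J F)) S F then c a S else 0) ^ 2 :=
          sum_nonneg fun _ _ => sq_nonneg _
        linarith [mul_le_mul_of_nonneg_right (pow_le_pow_left₀ (abs_nonneg _) h 2) e3]
    refine (sum_le_sum fun a _ => sum_le_sum fun S _ => e1 a S).trans ?_
    simp only [sum_add_distrib, ← mul_sum]
    have e7 : ∑ a ∈ I, ∑ S ∈ t.powerset, ∑ F ∈ C,
        (if Agr (range (J F)) S F then c a S else 0) ^ 2 ≤ η ^ 2 / 8 := by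
      refine le_trans (le_of_eq ?_) k4
      rw [sum_comm (s := C)]
      exact sum_congr rfl fun a _ => sum_comm
    have e6 : (η / (4 * M)) ^ 2 * M ^ 2 = η ^ 2 / 16 := by
      field_simp
      norm_num
    nlinarith [mul_le_mul_of_nonneg_left k3 (sq_nonneg (η / (4 * M))), sq_nonneg η]
  have k6 := mul_le_mul_of_nonneg_left k5 (inv_pos.2 hη).le
  have k7 : η⁻¹ * (η ^ 2 / 4) = η / 4 := by field_simp
  simp only [sig, map_sum V, map_smul V]
  linarith

end Pool.Agent.Lib.MP_f99ede_an.Unc
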