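import Pool.Agent.Lib.MP_f99ede_an.H80Nul
import Pool.Agent.Lib.MP_f99ede_an.Unc.Avg

/-! The moduli of the images of cylinders, grouped by their ancestors. -/

open MeasureTheory Finset Filter Topology

namespace Pool.Agent.Lib.MP_f99ede_an.Unc

theorem toL_abs (g : CC) : toL |g| = |toL g| := by
  refine Lp.ext ?_
  filter_upwards [toL_ae |g|, Lp.coeFn_abs (toL g), toL_ae g] with x h1 h2 h3
  rw [h1, h2, h3]
  rfl

theorem norm_eq_int {f : LC} (hf : 0 ≤ f) : ‖f‖ = L1.integralCLM f := by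
  rw [← L1.integral_eq, L1.integral_eq_integral, L1.norm_eq_integral_norm]
  refine integral_congr_ae ?_
  filter_upwards [(Lp.coeFn_nonneg f).2 hf] with x hx
  exact Real.norm_of_nonneg hx

/-- The cylinders of level `n` below the cylinder `b` of level `k`. -/
def fib (k : ℕ) (b : Finset ℕ) (n : ℕ) : Finset (Finset ℕ) :=
  (range n).powerset.filter fun a => a ∩ range k = b

theorem sum_fib_succ {M : Type*} [AddCommMonoid M] {k n : ℕ} (h : k ≤ n) (b : Finset ℕ)
    (F : Finset ℕ → M) :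
    ∑ a ∈ fib k b (n + 1), F a = ∑ a ∈ fib k b n, (F a + F (insert n a)) := by
  simp only [fib, sum_filter]
  rw [range_add_one, sum_powerset_insert notMem_range_self, ← sum_add_distrib]
  refine sum_congr rfl fun a _ => ?_
  rw [insert_inter_of_notMem (by simpa using h)]
  split_ifs <;> simp

theorem sum_fib {M : Type*} [AddCommMonoid M] (k n : ℕ) (F : Finset ℕ → M) :
    ∑ b ∈ (range k).powerset, ∑ a ∈ fib k b n, F a = ∑ a ∈ (range n).powerset, F a :=
  sum_fiberwise_of_maps_to (fun _ _ => mem_powerset.2 inter_subset_right) F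

theorem fib_half (k : ℕ) (b : Finset ℕ) (n : ℕ) (h : k ≤ n) :
    ∑ _a ∈ fib k b n, (1 / 2 : ℝ) ^ n ≤ (1 / 2) ^ k := by
  induction n, h using Nat.le_induction with
  | base =>
    have h1 : fib k b k ⊆ {b} := fun a ha => by
      simp only [fib, mem_filter, mem_powerset] at ha
      rw [mem_singleton, ← ha.2, inter_eq_left.2 ha.1]
    refine (sum_le_sum_of_subset_of_nonneg h1 fun _ _ _ => by positivity).trans ?_
    simp
  | succ n h ih =>
    rw [sum_fib_succ h]
    refine le_trans (le_of_eq (sum_congr rfl fun _ _ => ?_)) ih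
    ring

/-- The sum of the moduli below `b`. -/
noncomputable def phi (V : LC →L[ℝ] LC) (k : ℕ) (b : Finset ℕ) (n : ℕ) : LC :=
  ∑ a ∈ fib k b n, |V (toL (cyl n a))|

variable (V : LC →L[ℝ] LC)

theorem phi_mono (k : ℕ) (b : Finset ℕ) {m n : ℕ} (h : k ≤ m) (hn : m ≤ n) :
    phi V k b m ≤ phi V k b n := by
  induction n, hn using Nat.le_induction with
  | base => exact le_rfl
  | succ n hn ih =>
    refine ih.trans ?_
    rw [phi, phi, sum_fib_succ (h.trans hn)]
    refine sum_le_sum fun a ha => ?_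
    rw [cyl_split (mem_filter.1 ha).1, map_add, map_add]
    exact abs_add_le _ _

theorem phi_int (k : ℕ) (b : Finset ℕ) (n : ℕ) :
    L1.integralCLM (phi V k b n) = ∑ a ∈ fib k b n, ‖V (toL (cyl n a))‖ := by
  rw [phi, map_sum]
  exact sum_congr rfl fun a _ => by rw [← norm_eq_int (abs_nonneg _), norm_abs_eq_norm]

theorem phi_norm (k : ℕ) (b : Finset ℕ) {n : ℕ} (h : k ≤ n) :
    ‖phi V k b n‖ ≤ ‖V‖ * (1 / 2) ^ k := by
  rw [norm_eq_int (f := phi V k b n) (sum_nonneg fun _ _ => abs_nonneg _), phi_int]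
  refine (sum_le_sum fun a _ => V.le_opNorm _).trans ?_
  simp only [norm_cyl]
  rw [← mul_sum]
  exact mul_le_mul_of_nonneg_left (fib_half k b n h) (norm_nonneg _)

theorem approx (k : ℕ) {τ : ℝ} (hτ : 0 < τ) : ∃ (m : ℕ) (s : Finset ℕ) (ψ : Finset ℕ → CC),
    (∀ b ∈ (range k).powerset, DependsOn (ψ b) s) ∧ (∀ b, Ex (ψ b) ≤ ‖V‖ * (1 / 2) ^ k + τ) ∧
      ∀ n, m ≤ n → ∑ b ∈ (range k).powerset, ‖phi V k b n - toL (ψ b)‖ ≤ τ := by
  have hb : BddAbove (Set.range (tot V)) := ⟨_, by rintro _ ⟨n, rfl⟩; exact tot_le _ n⟩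
  obtain ⟨m0, hm0⟩ := exists_lt_of_lt_ciSup (f := tot V) (sub_lt_self (⨆ n, tot V n) (half_pos hτ))
  set m := max m0 k
  set σ := τ / 2 / 2 ^ k with hσ
  have hσ0 : 0 < σ := by positivity
  have hσ1 : σ ≤ τ := by
    rw [hσ, div_le_iff₀ (by positivity)]
    nlinarith [one_le_pow₀ (M₀ := ℝ) one_le_two (n := k)]
  choose s ψ h1 h2 using fun b => exists_cyl (phi V k b m) hσ0
  refine ⟨m, (range k).powerset.biUnion s, ψ,
    fun b hb => (h1 b).mono (coe_subset.2 (subset_biUnion_of_mem s hb)), fun b => ?_,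
    fun n hn => ?_⟩
  · have k1 : Ex (ψ b) ≤ Ex |ψ b| := Ex_mono fun x => le_abs_self _
    have k2 := norm_sub_norm_le (toL (ψ b)) (phi V k b m)
    rw [norm_sub_rev, norm_toL] at k2
    linarith [h2 b, phi_norm V k b (le_max_right m0 k)]
  · have k1 : ∀ b, ‖phi V k b n - toL (ψ b)‖ ≤
        (L1.integralCLM (phi V k b n) - L1.integralCLM (phi V k b m)) + σ := fun b => by
      rw [← map_sub, ← norm_eq_int (sub_nonneg.2 (phi_mono V k b (le_max_right m0 k) hn))]
      linarith [h2 b, norm_sub_le_norm_sub_add_norm_sub (phi V k b n) (phi V k b m) (toL (ψ b))]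
    refine (sum_le_sum fun b _ => k1 b).trans ?_
    simp only [sum_add_distrib, sum_sub_distrib, phi_int, sum_fib, sum_const, card_powerset,
      card_range, nsmul_eq_mul]
    have k2 : ((2 ^ k : ℕ) : ℝ) * σ = τ / 2 := by
      rw [hσ]
      push_cast
      field_simp
    have k3 := le_ciSup hb n
    have k4 := tot_mono V (le_max_left m0 k)
    unfold tot at k3 k4 hm0
    linarith

theorem near (k n : ℕ) (G ψ : Finset ℕ → CC) :
    ∑ b ∈ (range k).powerset, Ex |∑ a ∈ fib k b n, |G a| - ψ b| ≤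
      ∑ a ∈ (range n).powerset, ‖V (toL (cyl n a)) - toL (G a)‖ +
        ∑ b ∈ (range k).powerset, ‖phi V k b n - toL (ψ b)‖ := by
  rw [← sum_fib k n, ← sum_add_distrib]
  refine sum_le_sum fun b _ => ?_
  rw [← norm_toL, map_sub]
  refine (norm_sub_le_norm_sub_add_norm_sub _ (phi V k b n) _).trans (add_le_add_left ?_ _)
  rw [map_sum, phi, ← sum_sub_distrib]
  refine (norm_sum_le _ _).trans (sum_le_sum fun a _ => ?_)
  rw [toL_abs, norm_sub_rev]
  exact norm_abs_sub_abs _ _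

theorem small {ε : ℝ} (hε : 0 < ε) : ∃ J m : ℕ, ∀ n, m ≤ n → ∀ (G : Finset ℕ → CC) (τ M : ℝ)
    (s : Finset ℕ) (c : Finset ℕ → Finset ℕ → ℝ) (F : Finset ℕ), 0 ≤ M →
    ∑ a ∈ (range n).powerset, ‖V (toL (cyl n a)) - toL (G a)‖ ≤ τ →
    (∀ a ∈ (range n).powerset, ∀ x, |pol s (c a) x| ≤ |G a x|) →
    (∀ x, ∑ a ∈ (range n).powerset, |pol s (c a) x| ≤ M) →
    ∑ a ∈ (range n).powerset, ∑ S ∈ s.powerset, (if Agr (range J) S F then c a S else 0) ^ 2 ≤
      M * (3 * ε + τ) := by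
  have h0 : Tendsto (fun n : ℕ => ‖V‖ * (1 / 2) ^ n) atTop (𝓝 0) := by
    simpa using (tendsto_pow_atTop_nhds_zero_of_lt_one (r := (1 / 2 : ℝ)) (by norm_num)
      (by norm_num)).const_mul ‖V‖
  obtain ⟨k, hk⟩ := (h0.eventually (ge_mem_nhds hε)).exists
  obtain ⟨m, s0, ψ, h1, h2, h3⟩ := approx V k hε
  refine ⟨s0.sup id + 1, m, fun n hn G τ M s c F hM hG hc hcM => ?_⟩
  obtain ⟨B, b1, b2, b3⟩ := exists_avg (range (s0.sup id + 1))
  have mono : ∀ f g : CC, (∀ x, f x ≤ g x) → ∀ x, B ∅ f x ≤ B ∅ g x := fun f g h x => by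
    have k1 := (abs_nonneg _).trans (b2 ∅ (g - f) x)
    rw [abs_of_nonneg (a := g - f) fun y => by simpa using h y, map_sub] at k1
    simpa using k1
  have one : B ∅ 1 = 1 := by simpa [wal, Agr] using b1 ∅ ∅
  have cst : ∀ b ∈ (range k).powerset, ∀ x, B ∅ (ψ b) x = Ex (ψ b) := fun b hb => by
    obtain ⟨d, hd⟩ := exists_pol s0 (ψ b) (h1 b hb)
    have k1 : B ∅ (ψ b) = d ∅ • 1 := by
      rw [ContinuousMap.ext hd, avg_pol b1, pol, sum_eq_single ∅]
      · simp [Agr, wal]
      · intro S hS hne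
        obtain ⟨i, hi⟩ := nonempty_iff_ne_empty.2 hne
        rw [if_neg, zero_smul]
        intro h
        have k2 : i ≤ s0.sup id := le_sup (f := id) (mem_powerset.1 hS hi)
        exact notMem_empty i ((h i (mem_range.2 (by omega))).1 hi)
      · simp
    intro x
    rw [← b3 (ψ b), k1, map_smul, Ex_one]
    simp
  set K : Finset ℕ → CC := fun a => B ∅ |pol s (c a)| with hK
  have K0 : ∀ a x, 0 ≤ K a x := fun a x => (abs_nonneg _).trans (b2 ∅ _ x)
  have KM : ∀ x, ∑ a ∈ (range n).powerset, K a x ≤ M := fun x => by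
    have k1 := mono (∑ a ∈ (range n).powerset, |pol s (c a)|) (M • 1) (by simpa using hcM) x
    rw [map_sum, map_smul, one] at k1
    simpa [hK] using k1
  set Δ : Finset ℕ → CC := fun b => |∑ a ∈ fib k b n, |G a| - ψ b| with hΔ
  have D0 : ∀ b x, 0 ≤ B ∅ (Δ b) x := fun b x => (abs_nonneg _).trans (b2 ∅ _ x)
  have KD : ∀ b ∈ (range k).powerset, ∀ a ∈ fib k b n, ∀ x, K a x ≤ 2 * ε + B ∅ (Δ b) x :=
    fun b hb a ha x => by
      have k1 := mono |pol s (c a)| (ψ b + Δ b) (fun y => by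
        have k2 := single_le_sum (f := fun a => |G a y|) (fun _ _ => abs_nonneg _) ha
        have k3 := le_abs_self (∑ a ∈ fib k b n, |G a y| - ψ b y)
        have k4 := hc a (mem_filter.1 ha).1 y
        simp only [hΔ, ContinuousMap.abs_apply, ContinuousMap.add_apply, ContinuousMap.sub_apply,
          ContinuousMap.sum_apply]
        linarith) x
      rw [map_add, ContinuousMap.add_apply, cst b hb] at k1
      have := h2 b
      change K a x ≤ _ at k1
      linarith
  have pt : ∀ x, (∑ a ∈ (range n).powerset, K a * K a) x ≤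
      ((M * (2 * ε)) • 1 + M • ∑ b ∈ (range k).powerset, B ∅ (Δ b) : CC) x := fun x => by
    simp only [ContinuousMap.sum_apply, ContinuousMap.mul_apply, ContinuousMap.add_apply,
      ContinuousMap.smul_apply, ContinuousMap.one_apply, smul_eq_mul, mul_one]
    have k1 : ∀ b ∈ (range k).powerset, ∑ a ∈ fib k b n, K a x * K a x ≤
        (∑ a ∈ fib k b n, K a x) * (2 * ε) + M * B ∅ (Δ b) x := fun b hb => by
      have k2 : ∑ a ∈ fib k b n, K a x ≤ M :=
        (sum_le_sum_of_subset_of_nonneg (filter_subset _ _) fun a _ _ => K0 a x).trans (KM x)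
      refine (sum_le_sum fun a ha => mul_le_mul_of_nonneg_left (KD b hb a ha x) (K0 a x)).trans ?_
      rw [← sum_mul]
      nlinarith [D0 b x]
    rw [← sum_fib k n]
    refine (sum_le_sum k1).trans ?_
    rw [sum_add_distrib, ← sum_mul, sum_fib, ← mul_sum]
    nlinarith [KM x]
  have k5 := Ex_mono pt
  rw [map_add, map_smul, map_smul, Ex_one, map_sum, map_sum] at k5
  simp only [b3, smul_eq_mul, mul_one] at k5
  have k6 : ∑ b ∈ (range k).powerset, Ex (Δ b) ≤ τ + ε :=
    (near V k n G ψ).trans (add_le_add hG (h3 n hn))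
  refine le_trans (sum_le_sum fun a _ => ?_) (k5.trans (by nlinarith))
  simp only [sq]
  rw [← parseval, ← avg_pol b1]
  refine Ex_mono fun x => ?_
  simp only [ContinuousMap.mul_apply]
  rw [← abs_mul_abs_self]
  exact mul_self_le_mul_self (abs_nonneg _) (b2 F _ x)

end Pool.Agent.Lib.MP_f99ede_an.Unc
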