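import Pool.Agent.Lib.MP_f99ede_an.Unc.Space

/-! A separable space without a copy of `L₁` carries the Walsh systems of only countably many
trees of decreasing sequences. -/

open MeasureTheory Finset Filter Topology

namespace Pool.Agent.Lib.MP_f99ede_an.Unc

variable {Z : Type*} [NormedAddCommGroup Z] [NormedSpace ℝ Z]

omit [NormedSpace ℝ Z] in
theorem exists_net [TopologicalSpace.SeparableSpace Z] : ∃ (N : ℕ → Finset ℕ → Z)
    (cd : (Finset ℕ → Z) → ℕ → ℕ), ∀ z k, ∀ S ⊆ range (k + 1), ‖z S - N (cd z k) S‖ ≤ 1 / (k + 1) := by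
  have : SecondCountableTopology Z := UniformSpace.secondCountable_of_separable Z
  have h : ∀ (z : Finset ℕ → Z) (k : ℕ), ∃ i, ∀ S ⊆ range (k + 1),
      ‖z S - TopologicalSpace.denseSeq (Finset ℕ → Z) i S‖ ≤ 1 / (k + 1) := fun z k => by
    have h1 : IsOpen (⋂ S ∈ (range (k + 1)).powerset,
        {y : Finset ℕ → Z | ‖z S - y S‖ < 1 / (k + 1)}) :=
      isOpen_biInter_finset fun S _ => isOpen_lt (by fun_prop) continuous_const
    obtain ⟨i, hi⟩ := (TopologicalSpace.denseRange_denseSeq (Finset ℕ → Z)).exists_mem_open h1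
      ⟨z, Set.mem_iInter₂.2 fun S _ => by simpa using Nat.cast_add_one_pos k⟩
    exact ⟨i, fun S hS => (Set.mem_iInter₂.1 hi S (mem_powerset.2 hS)).le⟩
  choose cd hcd using h
  exact ⟨_, cd, hcd⟩

theorem limit [CompleteSpace Z] {C : ℝ} (z y : ℕ → Finset ℕ → Z) (h1 : ∀ n, Eqv C (n + 1) (z n))
    (h2 : ∀ n k, k < n → ∀ S ⊆ range (k + 1), ‖z n S - y k S‖ ≤ 1 / (k + 1)) :
    ∃ W : LC →L[ℝ] Z, ∀ f, ‖f‖ ≤ C * ‖W f‖ := by
  have hs : ∀ (S : Finset ℕ) (k : ℕ), S.sup id ≤ k → S ⊆ range (k + 1) := fun S k h i hi =>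
    mem_range.2 (Nat.lt_succ_of_le ((le_sup (f := id) hi).trans h))
  have hc : ∀ S, ∃ ζ, Tendsto (fun n => z n S) atTop (𝓝 ζ) := fun S => by
    refine cauchySeq_tendsto_of_complete (Metric.cauchySeq_iff.2 fun ε hε => ?_)
    obtain ⟨k, hk1, hk2⟩ := ((tendsto_one_div_add_atTop_nhds_zero_nat.eventually
      (gt_mem_nhds (half_pos hε))).and (eventually_ge_atTop (S.sup id))).exists
    refine ⟨k + 1, fun m hm n hn => ?_⟩
    have k1 := dist_triangle_right (z m S) (z n S) (y k S)
    rw [dist_eq_norm (z m S) (y k S), dist_eq_norm (z n S) (y k S)] at k1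
    linarith [h2 m k hm S (hs S k hk2), h2 n k hn S (hs S k hk2)]
  choose ζ hζ using hc
  have hb : ∀ c : Finset ℕ →₀ ℝ, ‖Finsupp.linearCombination ℝ ζ c‖ ≤
      C * ‖Finsupp.linearCombination ℝ (fun S => (1 : ℝ) • toL (wal S)) c‖ ∧
      ‖Finsupp.linearCombination ℝ (fun S => (1 : ℝ) • toL (wal S)) c‖ ≤
        C * ‖Finsupp.linearCombination ℝ ζ c‖ := fun c => by
    have k1 : Tendsto (fun n => ‖Finsupp.linearCombination ℝ (z n) c‖) atTop
        (𝓝 ‖Finsupp.linearCombination ℝ ζ c‖) := by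
      simp only [Finsupp.linearCombination_apply, Finsupp.sum]
      exact (tendsto_finsetSum _ fun S _ => (hζ S).const_smul _).norm
    have k2 : ∀ᶠ n in atTop, ‖Finsupp.linearCombination ℝ (z n) c‖ ≤
        C * ‖Finsupp.linearCombination ℝ (fun S => (1 : ℝ) • toL (wal S)) c‖ ∧
        ‖Finsupp.linearCombination ℝ (fun S => (1 : ℝ) • toL (wal S)) c‖ ≤
          C * ‖Finsupp.linearCombination ℝ (z n) c‖ := by
      filter_upwards [eventually_ge_atTop (c.support.sup fun S => S.sup id)] with n hn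
      have k3 : c.support ⊆ (range (n + 1)).powerset := fun S hS =>
        mem_powerset.2 (hs S n ((le_sup (f := fun S : Finset ℕ => S.sup id) hS).trans hn))
      rw [Finsupp.linearCombination_apply, Finsupp.linearCombination_apply,
        Finsupp.sum_of_support_subset _ k3 _ (by simp),
        Finsupp.sum_of_support_subset _ k3 _ (by simp)]
      simpa [pol] using h1 n c
    exact ⟨le_of_tendsto k1 (k2.mono fun n h => h.1),
      ge_of_tendsto (k1.const_mul C) (k2.mono fun n h => h.2)⟩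
  refine ⟨(Finsupp.linearCombination ℝ ζ).extendOfNorm
    (Finsupp.linearCombination ℝ fun S => (1 : ℝ) • toL (wal S)), fun f => ?_⟩
  refine dense_wal.induction_on f (isClosed_le (by fun_prop) (by fun_prop)) fun c => ?_
  rw [LinearMap.extendOfNorm_eq dense_wal ⟨C, fun c => (hb c).1⟩]
  exact (hb c).2

variable {I : Type*} [LinearOrder I]

/-- The tree of decreasing sequences below `β`. -/
def dec (β : I) : Set (List (Set.Iic β × ℕ)) := {l | l.Pairwise fun a b => (b.1 : I) < a.1}

theorem noBr_dec [WellFoundedLT I] (β : I) : NoBr (dec β) := fun t _ h N => by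
  by_contra hc
  simp only [not_exists, not_and, not_not] at hc
  choose x hx using h
  obtain ⟨n, hn⟩ := WellFounded.not_rel_apply_succ (r := fun a b : I => a < b)
    fun n => ((x (N + n)).1 : I)
  have k1 := hc (N + n + 1 + 1) (by omega)
  rw [hx, hx] at k1
  exact hn ((List.pairwise_append.1 k1).2.2 _ (by simp) _ (List.mem_singleton_self _))

theorem count [Uncountable I] (hI : ∀ b : I, (Set.Iic b).Countable) [CompleteSpace Z]
    [TopologicalSpace.SeparableSpace Z] (C : ℝ) (hZ : ∀ W : LC →L[ℝ] Z, ¬∀ f, ‖f‖ ≤ C * ‖W f‖) :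
    {β : I | ∃ ζ : List (Set.Iic β × ℕ) → Finset ℕ → Z, Emb (dec β) C ζ}.Countable := by
  obtain ⟨N, cd, hcd⟩ := exists_net (Z := Z)
  let B : List ℕ → Set I := fun σ => {γ | ∃ (β : I) (ζ : List (Set.Iic β × ℕ) → Finset ℕ → Z)
    (l : List (Set.Iic β × ℕ)), Emb (dec β) C ζ ∧ l ∈ dec β ∧ γ ≤ β ∧ (∀ p ∈ l, γ ≤ p.1) ∧
      (List.range l.length).map (fun k => cd (ζ (l.take k)) k) = σ}
  have step : ∀ σ, ¬(B σ).Countable → ∃ y, ¬(B (σ ++ [y])).Countable := fun σ h => by
    by_contra hc
    simp only [not_exists, not_not] at hc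
    obtain ⟨δ, hδ⟩ : ∃ δ, δ ∉ ⋃ y, B (σ ++ [y]) := by
      by_contra h1
      simp only [not_exists, not_not] at h1
      exact Set.not_countable_univ ((Set.countable_iUnion hc).mono fun δ _ => h1 δ)
    refine h ((hI δ).mono ?_)
    rintro γ ⟨β, ζ, l, h1, h2, h3, h4, rfl⟩
    by_contra h5
    have h6 : δ < γ := not_le.1 h5
    refine hδ (Set.mem_iUnion.2 ⟨cd (ζ l) l.length, β, ζ, l ++ [(⟨δ, h6.le.trans h3⟩, 0)], h1,
      List.pairwise_append.2 ⟨h2, by simp, fun a ha b hb => ?_⟩, h6.le.trans h3, fun p hp => ?_,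
      ?_⟩)
    · rw [List.mem_singleton.1 hb]
      exact h6.trans_le (h4 a ha)
    · rcases List.mem_append.1 hp with hp | hp
      · exact h6.le.trans (h4 p hp)
      · rw [List.mem_singleton.1 hp]
    · rw [List.length_append, List.length_singleton, List.range_succ, List.map_append]
      congr 1
      · exact List.map_congr_left fun k hk => by
          rw [List.take_append_of_le_length (List.mem_range.1 hk).le]
      · simp
  by_contra h0
  have h1 : ¬(B []).Countable := fun h => h0 (h.mono (by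
    rintro β ⟨ζ, hζ⟩
    exact ⟨β, ζ, [], hζ, List.Pairwise.nil, le_rfl, by simp, rfl⟩))
  choose! nx hnx using step
  let t : ℕ → List ℕ := fun n => Nat.rec [] (fun _ v => v ++ [nx v]) n
  have ht : ∀ n, ¬(B (t n)).Countable := fun n => by
    induction n with
    | zero => exact h1
    | succ n ih => exact hnx _ ih
  have ht1 : ∀ n, t n = (List.range n).map fun k => nx (t k) := fun n => by
    induction n with
    | zero => rfl
    | succ n ih => rw [List.range_succ, List.map_append, ← ih]; rfl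
  have h2 : ∀ n, ∃ z : Finset ℕ → Z, Eqv C (n + 1) z ∧ ∀ k, k < n → ∀ S ⊆ range (k + 1),
      ‖z S - N (nx (t k)) S‖ ≤ 1 / (k + 1) := fun n => by
    obtain ⟨γ, β, ζ, l, k1, k2, -, -, k3⟩ : (B (t n)).Nonempty := by
      rw [Set.nonempty_iff_ne_empty]
      intro e
      exact ht n (e ▸ Set.countable_empty)
    rw [ht1] at k3
    have k4 : l.length = n := by simpa using congrArg List.length k3
    subst k4
    refine ⟨ζ l, k1.2 l fun k => List.Pairwise.sublist (List.take_sublist k l) k2,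
      fun k hk S hS => ?_⟩
    rw [← List.map_inj_left.1 k3 k (List.mem_range.2 hk),
      k1.1 _ l (List.take_prefix k l) S (by rwa [List.length_take, min_eq_left hk.le])]
    exact hcd _ _ S hS
  choose z hz1 hz2 using h2
  obtain ⟨W, hW⟩ := limit z (fun k => N (nx (t k))) hz1 hz2
  exact hZ W hW

end Pool.Agent.Lib.MP_f99ede_an.Unc
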