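import Pool.Agent.Lib.MP_f99ede_an.Unc.Crit

/-! Weights along a tree without infinite branches, and the compactness of the families of finite
sets of bounded weight. -/

open Finset Filter Topology

namespace Pool.Agent.Lib.MP_f99ede_an.Unc

theorem cover {anc : ℕ → Finset ℕ} {w : ℕ → ℝ} (hw : ∀ v, 0 ≤ w v)
    (hT : ∀ M : Set ℕ, M.Infinite → ∀ L : ℝ, ∃ S : Finset ℕ, ↑S ⊆ M ∧ L < psi anc w S) (L : ℝ)
    (J : Finset ℕ → ℕ) :
    ∃ C : Finset (Finset ℕ), ∀ S, psi anc w S ≤ L → ∃ F ∈ C, Agr (range (J F)) S F := by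
  have op : ∀ (D : Finset ℕ) (y : Cube), IsOpen {x : Cube | ∀ i ∈ D, x i = y i} := fun D y => by
    have e : {x : Cube | ∀ i ∈ D, x i = y i} = ⋂ i ∈ D, (fun x : Cube => x i) ⁻¹' {y i} := by
      ext x
      simp
    rw [e]
    exact isOpen_biInter_finset fun i _ => (isOpen_discrete _).preimage (continuous_apply i)
  set K : Set Cube := {x | ∀ S : Finset ℕ, (∀ j ∈ S, x j = true) → psi anc w S ≤ L} with hK
  have hc : IsClosed K := by
    rw [← isOpen_compl_iff, isOpen_iff_forall_mem_open]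
    intro x hx
    simp only [hK, Set.mem_compl_iff, Set.mem_ofPred_eq, not_forall] at hx
    obtain ⟨S, h1, h2⟩ := hx
    exact ⟨_, fun y hy hyK => h2 (hyK S hy), op S fun _ => true, h1⟩
  obtain ⟨C, hC⟩ := hc.isCompact.elim_finite_subcover
    (fun F : Finset ℕ => {x : Cube | ∀ i ∈ range (J F), x i = decide (i ∈ F)})
    (fun F => op _ _) fun x hx => by
      have h1 : {j | x j = true}.Finite := by
        by_contra h
        obtain ⟨S, h2, h3⟩ := hT _ h L
        exact absurd (hx S fun j hj => h2 hj) (not_le.2 h3)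
      exact Set.mem_iUnion.2 ⟨h1.toFinset, fun i _ => by simp⟩
  refine ⟨C, fun S hS => ?_⟩
  have h1 : (fun j => decide (j ∈ S)) ∈ K := fun S' h =>
    (psi_mono hw fun j hj => by simpa using h j hj).trans hS
  obtain ⟨F, hF, h2⟩ := Set.mem_iUnion₂.1 (hC h1)
  exact ⟨F, hF, fun i hi => by simpa using h2 i hi⟩

theorem nul_res {anc : ℕ → Finset ℕ} {w : ℕ → ℝ} (hw : ∀ v, 0 ≤ w v)
    (hT : ∀ M : Set ℕ, M.Infinite → ∀ L : ℝ, ∃ S : Finset ℕ, ↑S ⊆ M ∧ L < psi anc w S) {l : ℝ}
    (hl : 0 < l) {R : LC →L[ℝ] LC} (hR1 : ‖R‖ ≤ 1)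
    (hR : ∀ S, R (toL (wal S)) = mps anc w l S • toL (wal S)) : Nul R := by
  have h0 : ∀ S, 0 < l + psi anc w S := fun S => by
    have := psi_nonneg (anc := anc) hw S
    positivity
  refine nul_mult hR1 hR (fun S => ?_) fun δ hδ J => ?_
  · rw [mps, abs_of_nonneg (div_nonneg hl.le (h0 S).le), div_le_one (h0 S)]
    linarith [psi_nonneg (anc := anc) hw S]
  · obtain ⟨C, hC⟩ := cover hw hT (l / δ) J
    refine ⟨C, fun S hS => hC S ?_⟩
    rw [mps, abs_of_nonneg (div_nonneg hl.le (h0 S).le), lt_div_iff₀ (h0 S)] at hS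
    rw [le_div_iff₀ hδ]
    nlinarith

variable {α : Type*}

/-- Every infinite branch leaves `T` infinitely often. -/
def NoBr (T : Set (List α)) : Prop :=
  ∀ t : ℕ → List α, t 0 = [] → (∀ n, ∃ x, t (n + 1) = t n ++ [x]) → ∀ N, ∃ n, N ≤ n ∧ t n ∉ T

/-- The codes of the prefixes. -/
def ancT (e : List α ≃ ℕ) (j : ℕ) : Finset ℕ :=
  (range ((e.symm j).length + 1)).image fun k => e ((e.symm j).take k)

open Classical in
/-- The weight of a node. -/
noncomputable def wT (e : List α ≃ ℕ) (T : Set (List α)) (v : ℕ) : ℝ :=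
  if e.symm v ∈ T then (1 / 2) ^ ((e.symm v).length + 1) else 1

variable (e : List α ≃ ℕ) (T : Set (List α))

theorem wT_ge (v : List α) : (1 / 2 : ℝ) ^ (v.length + 1) ≤ wT e T (e v) := by
  rw [wT, e.symm_apply_apply]
  split_ifs
  · exact le_rfl
  · exact pow_le_one₀ (by norm_num) (by norm_num)

theorem wT_nonneg (v : ℕ) : 0 ≤ wT e T v := by
  rw [wT]
  split_ifs <;> positivity

theorem wT_le (v : ℕ) : wT e T v ≤ 1 := by
  rw [wT]
  split_ifs
  · exact pow_le_one₀ (by norm_num) (by norm_num)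
  · exact le_rfl

theorem length_branch {t : ℕ → List α} (h0 : t 0 = []) (h : ∀ n, ∃ x, t (n + 1) = t n ++ [x])
    (n : ℕ) : (t n).length = n := by
  induction n with
  | zero => simp [h0]
  | succ n ih =>
    obtain ⟨x, hx⟩ := h n
    simp [hx, ih]

theorem tree_inf [Nonempty α] (hT : NoBr T) (M : Set ℕ) (hM : M.Infinite) (L : ℝ) :
    ∃ S : Finset ℕ, ↑S ⊆ M ∧ L < psi (ancT e) (wT e T) S := by
  classical
  by_contra hc
  simp only [not_exists, not_and, not_lt] at hc
  set P : Set (List α) := {v | ∃ j ∈ M, v <+: e.symm j} with hP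
  have key : ∀ (A : Set (List α)) (c : ℝ), 0 < c → A ⊆ P → (∀ v ∈ A, c ≤ wT e T (e v)) →
      A.Finite := fun A c hc0 hA hw => by
    by_contra h
    obtain ⟨N, hN⟩ := exists_nat_gt (L / c)
    obtain ⟨Q, hQ, rfl⟩ := Set.Infinite.exists_subset_card_eq h N
    choose! j hj1 hj2 using fun v (hv : v ∈ Q) => hA (hQ hv)
    have k1 := hc (Q.image j) (by
      intro i hi
      obtain ⟨v, hv, rfl⟩ := mem_image.1 (mem_coe.1 hi)
      exact hj1 v hv)
    have k2 : Q.image e ⊆ (Q.image j).biUnion (ancT e) := fun i hi => by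
      obtain ⟨v, hv, rfl⟩ := mem_image.1 hi
      refine mem_biUnion.2 ⟨j v, mem_image_of_mem _ hv, mem_image.2 ⟨v.length,
        mem_range.2 (Nat.lt_succ_of_le (hj2 v hv).length_le), ?_⟩⟩
      rw [← List.prefix_iff_eq_take.1 (hj2 v hv)]
    have k3 := sum_le_sum_of_subset_of_nonneg k2 fun v _ _ => wT_nonneg e T v
    rw [sum_image fun _ _ _ _ h => e.injective h] at k3
    have k4 := card_nsmul_le_sum Q (fun v => wT e T (e v)) c fun v hv => hw v (hQ hv)
    rw [div_lt_iff₀ hc0] at hN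
    rw [nsmul_eq_mul] at k4
    unfold psi at k1
    linarith
  have step : ∀ v : List α, {j ∈ M | v <+: e.symm j}.Infinite →
      ∃ x, {j ∈ M | v ++ [x] <+: e.symm j}.Infinite := fun v hv => by
    by_contra h
    simp only [not_exists, Set.not_infinite] at h
    have k1 := key {u | u ∈ P ∧ ∃ x, u = v ++ [x]} ((1 / 2) ^ (v.length + 1 + 1)) (by positivity)
      (fun _ hu => hu.1) (by
        rintro _ ⟨-, x, rfl⟩
        simpa using wT_ge e T (v ++ [x]))
    refine hv (((Set.finite_singleton (e v)).union (k1.biUnion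
      (t := fun u => {j ∈ M | u <+: e.symm j}) ?_)).subset ?_)
    · rintro _ ⟨-, x, rfl⟩
      exact h x
    · rintro j ⟨hj, r, hr⟩
      cases r with
      | nil => exact Or.inl (by simp [← e.symm_apply_eq, ← hr])
      | cons x r =>
        have k2 : v ++ [x] <+: e.symm j := ⟨r, by simp [← hr]⟩
        exact Or.inr (Set.mem_biUnion (x := v ++ [x]) ⟨⟨j, hj, k2⟩, x, rfl⟩ ⟨hj, k2⟩)
  choose! nx hnx using step
  let t : ℕ → List α := fun n => Nat.rec [] (fun _ v => v ++ [nx v]) n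
  have ht : ∀ n, {j ∈ M | t n <+: e.symm j}.Infinite := fun n => by
    induction n with
    | zero => simpa [t] using hM
    | succ n ih => exact hnx _ ih
  have hl := length_branch (t := t) rfl fun n => ⟨_, rfl⟩
  have k1 := key (t '' {n | t n ∉ T}) 1 one_pos (by
    rintro _ ⟨n, -, rfl⟩
    obtain ⟨j, hj⟩ := (ht n).nonempty
    exact ⟨j, hj⟩) (by
    rintro _ ⟨n, hn, rfl⟩
    rw [wT, e.symm_apply_apply, if_neg hn])
  obtain ⟨N, hN⟩ := (k1.of_finite_image fun a _ b _ h => by rw [← hl a, h, hl b]).bddAbove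
  obtain ⟨n, h1, h2⟩ := hT t rfl (fun n => ⟨_, rfl⟩) (N + 1)
  exact absurd (hN h2) (by omega)

theorem psi_chain (l : List α) (h : ∀ k, l.take k ∈ T) :
    psi (ancT e) (wT e T) ((range (l.length + 1)).image fun k => e (l.take k)) ≤ 1 := by
  have k1 : ((range (l.length + 1)).image fun k => e (l.take k)).biUnion (ancT e) ⊆
      (range (l.length + 1)).image fun k => e (l.take k) := fun v hv => by
    obtain ⟨_, h1, h2⟩ := mem_biUnion.1 hv
    obtain ⟨k, hk, rfl⟩ := mem_image.1 h1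
    obtain ⟨i, -, rfl⟩ := mem_image.1 h2
    refine mem_image.2 ⟨min i k, mem_range.2 ((min_le_right _ _).trans_lt (mem_range.1 hk)), ?_⟩
    rw [e.symm_apply_apply, List.take_take]
  refine (sum_le_sum_of_subset_of_nonneg k1 fun v _ _ => wT_nonneg e T v).trans ?_
  refine (sum_image_le_of_nonneg fun v _ => wT_nonneg e T v).trans ?_
  have k2 : ∀ n, ∑ k ∈ range n, (1 / 2 : ℝ) ^ (k + 1) = 1 - (1 / 2) ^ n := fun n => by
    induction n with
    | zero => simp
    | succ n ih =>
      rw [sum_range_succ, ih]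
      ring
  rw [sum_congr rfl (g := fun k => (1 / 2 : ℝ) ^ (k + 1)) fun k hk => by
    rw [wT, e.symm_apply_apply, if_pos (h k), List.length_take,
      min_eq_left (Nat.lt_succ_iff.1 (mem_range.1 hk))], k2]
  simp

theorem psi_single (x : α) : psi (ancT e) (wT e T) {e [x]} ≤ 2 := by
  rw [psi, singleton_biUnion, ancT, e.symm_apply_apply]
  refine (sum_image_le_of_nonneg fun v _ => wT_nonneg e T v).trans ?_
  refine (sum_le_sum fun k _ => wT_le e T _).trans ?_
  simp

end Pool.Agent.Lib.MP_f99ede_an.Unc
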