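import Pool.Agent.Lib.MP_f99ede_an.H89Own
import Pool.Agent.Lib.MP_f99ede_an.Unc.Tree

/-! The complemented subspace attached to a tree without infinite branches. -/

open MeasureTheory Finset Filter Topology

namespace Pool.Agent.Lib.MP_f99ede_an.Unc

theorem Ex_wal (S : Finset ℕ) : Ex (wal S) = if S = ∅ then 1 else 0 := by
  split_ifs with h
  · simp [h, wal, Ex_one]
  · obtain ⟨j, hj⟩ := nonempty_iff_ne_empty.2 h
    rw [← insert_erase hj, wal, prod_insert (notMem_erase _ _)]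
    exact Ex_rad_mul (f := wal (S.erase j)) fun x => by simp [wal_flp]

theorem dep_wal {S s : Finset ℕ} (h : S ⊆ s) {x y : Cube} (e : ∀ i ∈ (s : Set ℕ), x i = y i) :
    wal S x = wal S y := by
  rw [wal_apply, wal_apply]
  exact prod_congr rfl fun j hj => by rw [rad_apply, rad_apply, e j (h hj)]

theorem norm_reindex {κ : ℕ → ℕ} {s : Finset ℕ} (hκ : Set.InjOn κ s) (c : Finset ℕ → ℝ) :
    ‖toL (∑ S ∈ s.powerset, c S • wal (S.image κ))‖ = ‖toL (pol s c)‖ := by
  have h1 : ∀ (d : Finset ℕ → ℝ) (x : Cube), (∑ S ∈ s.powerset, d S • wal (S.image κ) : CC) x =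
      pol s d fun k => x (κ k) := fun d x => by
    simp only [pol_apply, ContinuousMap.sum_apply, ContinuousMap.smul_apply, smul_eq_mul]
    refine sum_congr rfl fun S hS => ?_
    rw [wal_apply, wal_apply, prod_image (hκ.mono (coe_subset.2 (mem_powerset.1 hS)))]
    rfl
  obtain ⟨d, hd⟩ := exists_pol s (fun x => |pol s c x|) fun x y e => by
    simp only [pol_apply]
    rw [sum_congr rfl fun S hS => by rw [dep_wal (mem_powerset.1 hS) e]]
  have h2 : |pol s c| = pol s d := ContinuousMap.ext hd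
  have h3 : |∑ S ∈ s.powerset, c S • wal (S.image κ)| =
      ∑ S ∈ s.powerset, d S • wal (S.image κ) := ContinuousMap.ext fun x => by
    rw [ContinuousMap.abs_apply, h1, h1, hd]
  rw [norm_toL, norm_toL, h2, h3, pol]
  simp only [map_sum, map_smul, Ex_wal, image_eq_empty]

theorem Up.comp {Z : Type*} [NormedAddCommGroup Z] [NormedSpace ℝ Z] {y : ℕ → Z} (h : Up y)
    {f : ℕ → ℕ} (hf : Function.Injective f) : Up fun j => y (f j) := by
  obtain ⟨C, hC⟩ := h
  refine ⟨C, fun F c => ?_⟩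
  have := hC (F.image f) fun i => c (Function.invFun f i)
  rwa [sum_image fun _ _ _ _ h => hf h, sum_image fun _ _ _ _ h => hf h,
    sum_congr rfl fun j _ => by rw [Function.leftInverse_invFun hf j],
    sum_congr rfl (g := fun j => c j ^ 2) fun j _ => by rw [Function.leftInverse_invFun hf j]]
    at this

theorem exists_psi {anc : ℕ → Finset ℕ} {w : ℕ → ℝ} (hw : ∀ v, 0 ≤ w v)
    (hT : ∀ M : Set ℕ, M.Infinite → ∀ L : ℝ, ∃ S : Finset ℕ, ↑S ⊆ M ∧ L < psi anc w S) :
    ∃ (P Φ : LC →L[ℝ] LC) (D : ℝ), (∀ z, P (P z) = P z) ∧ Nul P ∧ 0 < D ∧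
      ∀ (s : Finset ℕ) (g : CC), DependsOn g s → psi anc w s ≤ 2 →
        ‖toL g‖ ≤ D * ‖P (Φ (toL g))‖ := by
  obtain ⟨S⟩ := nonempty_selfSum_LC
  choose R hR1 hR using fun k : ℕ =>
    exists_res (anc := anc) hw (show (0 : ℝ) < 2 ^ k by positivity)
  have hc : ∀ k l, Commute (R k) (R l) := fun k l => ext_wal fun S => by
    simp [hR, smul_smul, mul_comm]
  have h1 : ∀ k, ‖1 - R k‖ ≤ 2 := fun k => (norm_sub_le _ _).trans (by
    linarith [hR1 k, ContinuousLinearMap.norm_id_le (𝕜 := ℝ) (E := LC),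
      show ‖(1 : LC →L[ℝ] LC)‖ = ‖ContinuousLinearMap.id ℝ LC‖ from rfl])
  have h2 : ∀ k l, ‖R k * (1 - R l)‖ ≤ 2 * (2 ^ k / 2 ^ l) := fun k l => by
    have e : R k * (1 - R l) = (2 ^ k / 2 ^ l : ℝ) • (R l * (1 - R k)) := ext_wal fun S => by
      simp only [_root_.smul_apply, mul_apply_eq_comp, _root_.sub_apply,
        one_apply_eq_self, map_sub, hR, map_smul, smul_smul, ← sub_smul]
      congr 1
      unfold mps
      have := psi_nonneg (anc := anc) hw S
      field_simp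
      ring
    rw [e, norm_smul, Real.norm_of_nonneg (by positivity), mul_comm]
    refine mul_le_mul_of_nonneg_right ((norm_mul_le _ _).trans ?_) (by positivity)
    nlinarith [hR1 l, h1 k, norm_nonneg (R l), norm_nonneg (1 - R k)]
  obtain ⟨P, q, hP, hq, hJ, hN⟩ := exists_proj S (fun k => Nat.casesOn k 0 R) 2 rfl
    (fun k l => by
      cases k
      · exact Commute.zero_left _
      · cases l
        · exact Commute.zero_right _
        · exact hc _ _)
    (fun k => by
      cases k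
      · simp
      · exact (hR1 _).trans one_le_two)
    (fun k l => by
      cases k with
      | zero => simp
      | succ k =>
        cases l with
        | zero =>
          have : (1 : ℝ) ≤ 2 ^ (k + 1) := one_le_pow₀ one_le_two
          simp only [Nat.rec_zero, sub_zero, mul_one, pow_zero, div_one]
          linarith [hR1 k]
        | succ l => exact (h2 k l).trans (le_of_eq (by field_simp; ring)))
    (fun k => by
      cases k
      · exact Nul.zero
      · exact nul_res hw hT (by positivity) (hR1 _) (hR _))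
  refine ⟨P, S.J 0, 5 * (‖q‖ + 1), hP, hN, by positivity, fun s g hg hs => ?_⟩
  obtain ⟨c, hc⟩ := exists_pol s g hg
  have h3 := q.le_opNorm (P (S.J 0 (toL g)))
  rw [hq, hJ] at h3
  change ‖R 0 _‖ ≤ _ at h3
  have h4 := (two_sided (anc := anc) hw (show (0 : ℝ) < 2 ^ 0 by positivity) s c).2
  rw [← mul_pol (hR 0), ← ContinuousMap.ext hc] at h4
  nlinarith [norm_nonneg (P (S.J 0 (toL g))), norm_nonneg (R 0 (toL g))]

section

variable {Z : Type*} [NormedAddCommGroup Z] [NormedSpace ℝ Z]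

/-- The family `z` is equivalent, with constant `C`, to the Walsh system of level `n`. -/
def Eqv (C : ℝ) (n : ℕ) (z : Finset ℕ → Z) : Prop :=
  ∀ c : Finset ℕ → ℝ, ‖∑ S ∈ (range n).powerset, c S • z S‖ ≤ C * ‖toL (pol (range n) c)‖ ∧
    ‖toL (pol (range n) c)‖ ≤ C * ‖∑ S ∈ (range n).powerset, c S • z S‖

/-- Coherent copies of the Walsh systems along the tree `T`. -/
def Emb {α : Type*} (T : Set (List α)) (C : ℝ) (ζ : List α → Finset ℕ → Z) : Prop :=
  (∀ l l' : List α, l <+: l' → ∀ S ⊆ range (l.length + 1), ζ l' S = ζ l S) ∧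
    ∀ l : List α, (∀ k, l.take k ∈ T) → Eqv C (l.length + 1) (ζ l)

theorem Emb.map {α : Type*} {T : Set (List α)} {C : ℝ} {ζ : List α → Finset ℕ → Z} (h : Emb T C ζ)
    (hC : 0 ≤ C) {W : Type*} [NormedAddCommGroup W] [NormedSpace ℝ W] (U : Z →L[ℝ] W) {a : ℝ}
    (ha : 0 < a) (hU : ∀ x, a * ‖x‖ ≤ ‖U x‖) : ∃ N : ℕ, Emb T N fun l S => U (ζ l S) := by
  obtain ⟨N, hN⟩ := exists_nat_ge (max (‖U‖ * C) (C / a))
  refine ⟨N, fun l l' h1 S hS => congrArg U (h.1 l l' h1 S hS), fun l hl c => ?_⟩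
  obtain ⟨k1, k2⟩ := h.2 l hl c
  simp only [← map_smul, ← map_sum]
  constructor
  · refine (U.le_opNorm _).trans ((mul_le_mul_of_nonneg_left k1 (norm_nonneg _)).trans ?_)
    rw [← mul_assoc]
    exact mul_le_mul_of_nonneg_right ((le_max_left _ _).trans hN) (norm_nonneg _)
  · refine k2.trans (le_trans ?_
      (mul_le_mul_of_nonneg_right ((le_max_right _ _).trans hN) (norm_nonneg _)))
    rw [div_mul_eq_mul_div, le_div_iff₀ ha]
    nlinarith [mul_le_mul_of_nonneg_left (hU (∑ S ∈ (range (l.length + 1)).powerset,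
      c S • ζ l S)) hC]

end

/-- The properties shared by all members of the family. -/
def Good (X : Submodule ℝ L01) : Prop :=
  (∃ P : L01 →L[ℝ] L01, (∀ f, P (P f) = P f) ∧ LinearMap.range (P : L01 →ₗ[ℝ] L01) = X) ∧
    ¬FiniteDimensional ℝ X ∧
    (∀ (T : L01 →L[ℝ] X) (c : ℝ), 0 < c → ¬∀ f, c * ‖f‖ ≤ ‖T f‖) ∧
    (∀ (T : X →L[ℝ] ell1) (c : ℝ), 0 < c → ¬∀ x, c * ‖x‖ ≤ ‖T x‖) ∧
    ∃ (x : ℕ → X) (c : ℝ), 0 < c ∧ (∀ j, c ≤ ‖x j‖) ∧
      ∀ φ : X →L[ℝ] ℝ, Tendsto (fun j => φ (x j)) atTop (𝓝 0)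

theorem exists_space {α : Type*} [Countable α] [Infinite α] {T : Set (List α)} (hT : NoBr T) :
    ∃ X : Submodule ℝ L01, Good X ∧
      ∃ (C : ℝ) (ζ : List α → Finset ℕ → X), 0 ≤ C ∧ Emb T C ζ := by
  obtain ⟨e⟩ : Nonempty (List α ≃ ℕ) := nonempty_equiv_of_countable
  obtain ⟨P0, Φ, D, hP0, hN0, hD, hb⟩ := exists_psi (wT_nonneg e T) (tree_inf e T hT)
  obtain ⟨i⟩ := exists_equiv
  let u : LC →L[ℝ] L01 := i.toContinuousLinearEquiv
  let v : L01 →L[ℝ] LC := i.symm.toContinuousLinearEquiv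
  let P : L01 →L[ℝ] L01 := (u ∘L P0) ∘L v
  have hP : ∀ z, P (P z) = P z := fun z => by simp [P, u, v, hP0]
  have hN : Nul P := (hN0.left u).right v
  let X : Submodule ℝ L01 := LinearMap.range (P : L01 →ₗ[ℝ] L01)
  have hX : ∀ x : X, P x = x := by
    rintro ⟨_, z, rfl⟩
    exact hP z
  let p : L01 →L[ℝ] X := P.codRestrict X fun z => ⟨z, rfl⟩
  let Ψ : LC →L[ℝ] X := p ∘L u ∘L Φ
  have hΨ : ∀ f, ‖Ψ f‖ = ‖P0 (Φ f)‖ := fun f => by
    change ‖P (u (Φ f))‖ = _
    simp [P, u, v]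
  let f : ℕ → ℕ := fun j => e [Infinite.natEmbedding α j]
  have hf : Function.Injective f := fun a b h => by simpa [f] using h
  have hx : Up fun j => Ψ (toL (rad (f j))) := (Up.comp up_rad hf).map Ψ
  have hcx : ∀ j, 1 / D ≤ ‖Ψ (toL (rad (f j)))‖ := fun j => by
    have h1 := hb {f j} (rad (f j)) (fun x y h => by rw [rad_apply, rad_apply, h _ (by simp)])
      (psi_single e T _)
    have h5 : ‖toL (rad (f j))‖ = 1 := by
      rw [norm_toL, ← Ex_one]
      congr 1
      ext x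
      simp only [ContinuousMap.abs_apply, rad_apply]
      split_ifs <;> simp
    rw [hΨ, div_le_iff₀ hD]
    linarith
  have hc : 0 < 1 / D := by positivity
  refine ⟨X, ⟨⟨P, hP, rfl⟩, hx.not_finite hc hcx, fun T a ha hT => ?_, fun T a ha hT => ?_,
    _, _, hc, hcx, hx.weak⟩, max D ‖Ψ‖,
    fun l S => Ψ (toL (wal (S.image fun k => e (l.take k)))), le_max_of_le_left hD.le,
    fun l l' h S hS => ?_, fun l hl c => ?_⟩
  · refine hN.not_below (X.subtypeL ∘L T ∘L u) (c := a) ha fun f => ?_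
    have h2 : ‖u f‖ = ‖f‖ := by simp [u]
    change _ ≤ ‖P (T (u f) : X)‖
    rw [hX, ← h2]
    exact hT (u f)
  · exact (hx.map T).not_ell1 (c := a * (1 / D)) (by positivity) fun j =>
      (mul_le_mul_of_nonneg_left (hcx j) ha.le).trans (hT _)
  · obtain ⟨r, rfl⟩ := h
    simp only
    rw [image_congr fun k hk => by
      rw [List.take_append_of_le_length (Nat.lt_succ_iff.1 (mem_range.1 (hS hk)))]]
  · have h1 : Set.InjOn (fun k => e (l.take k)) (range (l.length + 1) : Finset ℕ) :=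
      fun a ha b hb h => by
        have h2 := congrArg List.length (e.injective h)
        rwa [List.length_take, List.length_take,
          min_eq_left (Nat.lt_succ_iff.1 (mem_range.1 ha)),
          min_eq_left (Nat.lt_succ_iff.1 (mem_range.1 hb))] at h2
    simp only [← map_smul, ← map_sum]
    rw [← norm_reindex h1]
    refine ⟨(Ψ.le_opNorm _).trans (mul_le_mul_of_nonneg_right (le_max_right _ _) (norm_nonneg _)),
      le_trans ?_ (mul_le_mul_of_nonneg_right (le_max_left _ _) (norm_nonneg _))⟩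
    rw [hΨ]
    refine hb _ _ (fun x y h => ?_) ((psi_chain e T l hl).trans one_le_two)
    simp only [ContinuousMap.sum_apply, ContinuousMap.smul_apply]
    exact sum_congr rfl fun S hS => by rw [dep_wal (image_subset_image (mem_powerset.1 hS)) h]

end Pool.Agent.Lib.MP_f99ede_an.Unc
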